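import Pool.Agent.H.MP_e1108f_an.D

open Complex Set Filter Topology Metric
open scoped ComplexConjugate

namespace Pool.Agent.Results.MP_e1108f_an.Q2

/-- Bounded analytic functions on the unit disc. -/
def Hinf (g : ℂ → ℂ) : Prop := DifferentiableOn ℂ g (ball 0 1) ∧ ∃ M : ℝ, ∀ z ∈ ball (0 : ℂ) 1, ‖g z‖ ≤ M

/-- The supremum norm over the disc. -/
noncomputable def supNorm (g : ℂ → ℂ) : ℝ := sSup ((fun z => ‖g z‖) '' ball 0 1)

/-- `g` is a minimal-norm interpolant of `f` at the nodes `z`. -/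
def IsMinInterp (f : ℂ → ℂ) (z : ℕ → ℂ) (g : ℂ → ℂ) : Prop :=
  Hinf g ∧ (∀ n, g (z n) = f (z n)) ∧ ∀ h, Hinf h → (∀ n, h (z n) = f (z n)) → supNorm g ≤ supNorm h

/-- `B` is a finite or infinite Blaschke product on the disc. -/
def IsBlaschke (B : ℂ → ℂ) : Prop :=
  ∃ (l : ℂ) (k : ℕ) (s : Set ℕ) (a : ℕ → ℂ), ‖l‖ = 1 ∧ (∀ j ∈ s, a j ≠ 0 ∧ ‖a j‖ < 1) ∧
    (Summable fun j : s => 1 - ‖a j‖) ∧
    ∀ z ∈ ball (0 : ℂ) 1, B z = l * z ^ k * ∏' j : s, (‖a j‖ / a j * ((a j - z) / (1 - conj (a j) * z)))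

open Pool.Agent.H.MP_e1108f_an

theorem result : ∃ (f : ℂ → ℂ) (z : ℕ → ℂ) (g : ℂ → ℂ), Hinf f ∧ (∀ n, ‖z n‖ < 1) ∧
    (Summable fun n => 1 - ‖z n‖) ∧ (∀ m n, m ≠ n → 1 / 3 ≤ ‖(z m - z n) / (1 - conj (z n) * z m)‖) ∧
    Tendsto (fun n => f (z n)) atTop (𝓝 0) ∧
    IsMinInterp f z g ∧ (∀ g', IsMinInterp f z g' → EqOn g' g (ball 0 1)) ∧
    ¬∃ (c : ℂ) (B : ℂ → ℂ), IsBlaschke B ∧ ∀ w ∈ ball (0 : ℂ) 1, g w = c * B w := by
  obtain ⟨d⟩ := nonempty_denumerable N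
  let e := (Denumerable.eqv N).symm
  have hf : Hinf g := ⟨g_bl.1, 1, g_bl.2⟩
  have ne : ((fun z => ‖g z‖) '' ball (0 : ℂ) 1).Nonempty := (nonempty_ball.2 one_pos).image _
  have n1 : supNorm g ≤ 1 := csSup_le ne (by rintro _ ⟨z, hz, rfl⟩; exact g_bl.2 z hz)
  have u : ∀ h, Hinf h → (∀ n, h (cay (pos (e n))) = g (cay (pos (e n)))) → supNorm h ≤ 1 → EqOn h g (ball 0 1) :=
    fun h hh hi h1 => by
    obtain ⟨hd, M, hM⟩ := hh
    refine uniq ⟨hd, fun z hz => (le_csSup ⟨M, by rintro _ ⟨z, hz, rfl⟩; exact hM z hz⟩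
      (mem_image_of_mem (fun z => ‖h z‖) hz)).trans h1⟩ fun n => ?_
    have := hi (e.symm n)
    rwa [e.apply_symm_apply] at this
  refine ⟨g, fun n => cay (pos (e n)), g, hf, fun n => cay_lt (pos_pos _), e.summable_iff.2 summ,
    fun m n h => sep (e.injective.ne h.symm), ?_,
    ⟨hf, fun _ => rfl, fun h hh hi => ?_⟩, fun g' hg => u g' hg.1 hg.2.1 ((hg.2.2 g hf fun _ => rfl).trans n1), ?_⟩
  · rw [← Nat.cofinite_eq_atTop]
    exact g_lim.comp e.injective.tendsto_cofinite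
  · rcases le_total (supNorm h) 1 with h1 | h1
    · exact le_of_eq (congrArg sSup (image_congr fun z hz => by rw [u h hh hi h1 hz]))
    · exact n1.trans h1
  · rintro ⟨c, B, ⟨l, k, s, b, -, hb, hs, hB⟩, hc⟩
    refine notB (b := fun j : s => b j) ⟨fun j => (hb j j.2).1, fun j => (hb j j.2).2, hs⟩ (c * l) k fun z hz => ?_
    rw [hc z hz, hB z hz, mul_assoc, mul_assoc]; rfl

end Pool.Agent.Results.MP_e1108f_an.Q2
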